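import Pool.Agent.Y488.KSProof

/-!
Riemannian manifolds satisfying a linear differential condition on the curvature need not be
locally symmetric: in every dimension `n ≥ 4` there is a Riemannian metric on a convex open subset
of `ℝⁿ` with `∇³R + t ⊗ ∇²R = 0`, `∇R` nowhere zero, which satisfies no such condition of
order one or two at any point and whose curvature tensor has no nullity.
-/

namespace Pool.Agent.Results.MP_9d59e9_gt.OrderThree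

open Pool.Agent.Y488.KS
open scoped ContDiff

theorem result (n : ℕ) (hn : 4 ≤ n) :
    ∃ (U : Set (Fin n → ℝ)) (g : (Fin n → ℝ) → Matrix (Fin n) (Fin n) ℝ)
      (t : (m : ℕ) → (Fin n → ℝ) → (Fin n → ℝ) [×m]→L[ℝ] ℝ),
      IsOpen U ∧ U.Nonempty ∧ Convex ℝ U ∧
      (∀ i j, ContDiffOn ℝ ∞ (fun x => g x i j) U) ∧ (∀ x ∈ U, (g x).PosDef) ∧
      (∀ m, ContDiffOn ℝ ∞ (t m) U) ∧
      (∀ x ∈ U, KSAt g 3 x (fun m => t m x)) ∧
      (∀ x ∈ U, ∃ v, nablaR g 1 x v ≠ 0) ∧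
      (∀ x ∈ U, ∀ s : (m : ℕ) → (Fin n → ℝ) [×m]→L[ℝ] ℝ, ¬ KSAt g 1 x s ∧ ¬ KSAt g 2 x s) ∧
      (∀ x ∈ U, ∀ X : Fin n → ℝ, X ≠ 0 → ∃ v, v 1 = X ∧ riem g x v ≠ 0) :=
  main n hn

end Pool.Agent.Results.MP_9d59e9_gt.OrderThree
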